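import Mathlib
import Pool.Agent.H103R3.FrameCrit

/-!
# The forms of the powers of the Gram matrix of a maximal equiangular tight frame
-/

set_option autoImplicit false
set_option linter.unusedSectionVars false

namespace Pool.Agent.H239.PH

open scoped InnerProductSpace ComplexConjugate
open Finset Pool.Agent.H103R3

section Polar

variable {κ : Type*} [Fintype κ]

/-- the sesquilinear form of a matrix -/
noncomputable def form (H : κ → κ → ℂ) (a b : κ → ℂ) : ℂ := ∑ s, ∑ t, conj (a s) * b t * H s t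

/-- the sum of the squares of the absolute values -/
noncomputable def nsq (a : κ → ℂ) : ℝ := ∑ s, ‖a s‖ ^ 2

lemma nsq_nonneg (a : κ → ℂ) : 0 ≤ nsq a := sum_nonneg fun _ _ => sq_nonneg _

lemma form_zero_of_left (H : κ → κ → ℂ) {a : κ → ℂ} (b : κ → ℂ) (h : nsq a = 0) :
    form H a b = 0 := by
  have h1 : ∀ s, a s = 0 := by
    intro s
    have h2 := (sum_eq_zero_iff_of_nonneg (fun i _ => sq_nonneg ‖a i‖)).mp h s (mem_univ s)
    exact norm_eq_zero.mp (pow_eq_zero_iff (two_ne_zero) |>.mp h2)
  unfold form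
  refine sum_eq_zero fun s _ => sum_eq_zero fun t _ => ?_
  rw [h1 s, map_zero, zero_mul, zero_mul]

lemma form_zero_of_right (H : κ → κ → ℂ) (a : κ → ℂ) {b : κ → ℂ} (h : nsq b = 0) :
    form H a b = 0 := by
  have h1 : ∀ s, b s = 0 := by
    intro s
    have h2 := (sum_eq_zero_iff_of_nonneg (fun i _ => sq_nonneg ‖b i‖)).mp h s (mem_univ s)
    exact norm_eq_zero.mp (pow_eq_zero_iff (two_ne_zero) |>.mp h2)
  unfold form
  refine sum_eq_zero fun s _ => sum_eq_zero fun t _ => ?_
  rw [h1 t, mul_zero, zero_mul]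

lemma form_conj {H : κ → κ → ℂ} (hH : ∀ s t, H s t = conj (H t s)) (a b : κ → ℂ) :
    form H b a = conj (form H a b) := by
  unfold form
  rw [map_sum, sum_comm]
  refine sum_congr rfl fun s _ => ?_
  rw [map_sum]
  refine sum_congr rfl fun t _ => ?_
  rw [map_mul, map_mul, Complex.conj_conj, ← hH]
  ring

lemma form_comb (H : κ → κ → ℂ) (a b : κ → ℂ) (p q : ℝ) :
    form H (fun s => p * a s + q * b s) (fun s => p * a s + q * b s) =
      p ^ 2 * form H a a + q ^ 2 * form H b b + p * q * (form H a b + form H b a) := by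
  unfold form
  simp only [mul_sum, ← sum_add_distrib]
  refine sum_congr rfl fun s _ => sum_congr rfl fun t _ => ?_
  rw [map_add, map_mul, map_mul, Complex.conj_ofReal, Complex.conj_ofReal]
  ring

lemma nsq_comb (a b : κ → ℂ) (p q : ℝ) :
    nsq (fun s => p * a s + q * b s) + nsq (fun s => p * a s + ((-q : ℝ) : ℂ) * b s) =
      2 * (p ^ 2 * nsq a + q ^ 2 * nsq b) := by
  unfold nsq
  rw [← sum_add_distrib, mul_sum, mul_sum, ← sum_add_distrib, mul_sum]
  refine sum_congr rfl fun s _ => ?_
  have h := parallelogram_law_with_norm ℝ ((p : ℂ) * a s) ((q : ℂ) * b s)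
  have e : (p : ℂ) * a s + ((-q : ℝ) : ℂ) * b s = (p : ℂ) * a s - (q : ℂ) * b s := by
    push_cast
    ring
  show ‖(p : ℂ) * a s + (q : ℂ) * b s‖ ^ 2 + ‖(p : ℂ) * a s + ((-q : ℝ) : ℂ) * b s‖ ^ 2 = _
  rw [e, h, norm_mul, norm_mul, Complex.norm_real, Complex.norm_real, Real.norm_eq_abs,
    Real.norm_eq_abs, mul_pow, mul_pow, sq_abs, sq_abs]

/-- **Polarisation.** -/
theorem polar {H : κ → κ → ℂ} (hH : ∀ s t, H s t = conj (H t s)) {N : ℝ} (hN : 0 ≤ N)
    (h : ∀ c : κ → ℂ, |(form H c c).re| ≤ N * nsq c) (a b : κ → ℂ) :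
    ‖form H a b‖ ≤ N * (√(nsq a) * √(nsq b)) := by
  have key : ∀ b : κ → ℂ, (form H a b).re ≤ N * (√(nsq a) * √(nsq b)) := by
    intro b
    rcases (nsq_nonneg a).lt_or_eq with ha | ha
    · rcases (nsq_nonneg b).lt_or_eq with hb | hb
      · set α := √(nsq a) with hα
        set β := √(nsq b) with hβ
        have hα0 : 0 < α := Real.sqrt_pos.mpr ha
        have hβ0 : 0 < β := Real.sqrt_pos.mpr hb
        have hα2 : α ^ 2 = nsq a := Real.sq_sqrt ha.le
        have hβ2 : β ^ 2 = nsq b := Real.sq_sqrt hb.le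
        have e1 := congrArg Complex.re (form_comb H a b β α)
        have e2 := congrArg Complex.re (form_comb H a b β (-α))
        have hab : (form H b a).re = (form H a b).re := by
          rw [form_conj hH a b, Complex.conj_re]
        have r1 : ∀ (p q : ℝ), ((p : ℂ) ^ 2 * form H a a + (q : ℂ) ^ 2 * form H b b +
            p * q * (form H a b + form H b a)).re = p ^ 2 * (form H a a).re +
            q ^ 2 * (form H b b).re + 2 * (p * q * (form H a b).re) := by
          intro p q
          have e : ((p : ℂ) ^ 2 * form H a a + (q : ℂ) ^ 2 * form H b b +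
              p * q * (form H a b + form H b a)) = ((p ^ 2 : ℝ) : ℂ) * form H a a +
              ((q ^ 2 : ℝ) : ℂ) * form H b b + ((p * q : ℝ) : ℂ) * (form H a b + form H b a) := by
            push_cast
            ring
          rw [e, Complex.add_re, Complex.add_re, Complex.re_ofReal_mul, Complex.re_ofReal_mul,
            Complex.re_ofReal_mul, Complex.add_re, hab]
          ring
        rw [r1] at e1
        rw [r1] at e2
        have b1 := h (fun s => (β : ℂ) * a s + (α : ℂ) * b s)
        have b2 := h (fun s => (β : ℂ) * a s + ((-α : ℝ) : ℂ) * b s)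
        have hn := nsq_comb a b β α
        rw [← hα2, ← hβ2] at hn
        have c1 := (abs_le.mp b1).2
        have c2 := (abs_le.mp b2).1
        rw [e1] at c1
        rw [e2] at c2
        have hfin : 4 * (α * β) * (form H a b).re ≤ 4 * (α * β) * (N * (α * β)) := by
          have h3 : N * nsq (fun s => (β : ℂ) * a s + (α : ℂ) * b s) +
              N * nsq (fun s => (β : ℂ) * a s + ((-α : ℝ) : ℂ) * b s) =
              N * (2 * (β ^ 2 * α ^ 2 + α ^ 2 * β ^ 2)) := by
            rw [← mul_add, hn]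
          nlinarith
        exact le_of_mul_le_mul_left hfin (by positivity)
      · rw [form_zero_of_right H a hb.symm, ← hb]
        simp
    · rw [form_zero_of_left H b ha.symm, ← ha]
      simp
  rcases eq_or_ne (form H a b) 0 with h0 | h0
  · rw [h0, norm_zero]
    positivity
  · set w : ℂ := conj (form H a b) / ‖form H a b‖ with hw
    have hnz : ((‖form H a b‖ : ℝ) : ℂ) ≠ 0 := by
      rw [Ne, Complex.ofReal_eq_zero, norm_eq_zero]
      exact h0
    have hw1 : ‖w‖ = 1 := by
      rw [hw, norm_div, RCLike.norm_conj, Complex.norm_real, norm_norm,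
        div_self (norm_ne_zero_iff.mpr h0)]
    have h1 := key (fun s => w * b s)
    have h2 : form H a (fun s => w * b s) = w * form H a b := by
      unfold form
      rw [mul_sum]
      refine sum_congr rfl fun s _ => ?_
      rw [mul_sum]
      refine sum_congr rfl fun t _ => ?_
      ring
    have h3 : w * form H a b = ((‖form H a b‖ : ℝ) : ℂ) := by
      rw [hw, div_mul_eq_mul_div, mul_comm, Complex.mul_conj, Complex.normSq_eq_norm_sq]
      push_cast
      rw [sq, mul_div_assoc, div_self hnz, mul_one]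
    have h4 : nsq (fun s => w * b s) = nsq b := by
      unfold nsq
      refine sum_congr rfl fun s _ => ?_
      rw [norm_mul, hw1, one_mul]
    rw [h2, h3, Complex.ofReal_re, h4] at h1
    exact h1

end Polar

section ETF

variable {d : ℕ} {κ : Type*} [Fintype κ] [DecidableEq κ]

/-- the assumptions on a maximal equiangular tight frame -/
structure IsETF (x : κ → EuclideanSpace ℂ (Fin d)) : Prop where
  hd : 0 < d
  card : Fintype.card κ = d ^ 2
  h1 : ∀ k, ‖x k‖ = 1
  h2 : ∀ k l, k ≠ l → ‖⟪x k, x l⟫_ℂ‖ = 1 / Real.sqrt ((d : ℝ) + 1)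

variable {x : κ → EuclideanSpace ℂ (Fin d)}

/-- the `m`-th powers of the entries of the Gram matrix -/
noncomputable def gp (x : κ → EuclideanSpace ℂ (Fin d)) (m : ℕ) (s t : κ) : ℂ := ⟪x s, x t⟫_ℂ ^ m

lemma gp_conj (m : ℕ) (s t : κ) : gp x m s t = conj (gp x m t s) := by
  unfold gp
  rw [map_pow, inner_conj_symm]

/-- the value of the form at `x k` -/
noncomputable def val (x : κ → EuclideanSpace ℂ (Fin d)) (m : ℕ) (c : κ → ℂ) (k : κ) : ℂ :=
  ∑ s, c s * gp x m k s

lemma form_val (m : ℕ) (c : κ → ℂ) :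
    form (gp x m) c c = ∑ s, conj (c s) * val x m c s := by
  unfold form val
  refine sum_congr rfl fun s _ => ?_
  rw [mul_sum]
  refine sum_congr rfl fun t _ => ?_
  ring

lemma normSq_val (m : ℕ) (c : κ → ℂ) (k : κ) : ((‖val x m c k‖ ^ 2 : ℝ) : ℂ) =
    ∑ s, ∑ t, conj (c s) * c t * (gp x m s k * gp x m k t) := by
  have e2 : ((‖val x m c k‖ ^ 2 : ℝ) : ℂ) = conj (val x m c k) * val x m c k := by
    rw [mul_comm, Complex.mul_conj, Complex.normSq_eq_norm_sq]
  rw [e2, val, map_sum, sum_mul_sum]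
  refine sum_congr rfl fun s _ => sum_congr rfl fun t _ => ?_
  rw [map_mul, ← gp_conj]
  ring

/-- the general argument: a form whose square is a multiple of it -/
lemma bounds_of (m : ℕ) {K : ℝ} (hK : 0 < K)
    (h : ∀ s t, ∑ k, gp x m s k * gp x m k t = (K : ℂ) * gp x m s t) (c : κ → ℂ) :
    0 ≤ (form (gp x m) c c).re ∧ (form (gp x m) c c).re ≤ K * nsq c := by
  have hsum : ((∑ k, ‖val x m c k‖ ^ 2 : ℝ) : ℂ) = (K : ℂ) * form (gp x m) c c := by
    rw [Complex.ofReal_sum]
    rw [sum_congr rfl fun k _ => normSq_val m c k, sum_comm]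
    unfold form
    rw [mul_sum]
    refine sum_congr rfl fun s _ => ?_
    rw [sum_comm, mul_sum]
    refine sum_congr rfl fun t _ => ?_
    rw [← mul_sum, h]
    ring
  have hre : ∑ k, ‖val x m c k‖ ^ 2 = K * (form (gp x m) c c).re := by
    have h := congrArg Complex.re hsum
    rwa [Complex.ofReal_re, Complex.re_ofReal_mul] at h
  have hQ0 : 0 ≤ (form (gp x m) c c).re := by
    have h3 : 0 ≤ K * (form (gp x m) c c).re := by
      rw [← hre]
      exact sum_nonneg fun k _ => sq_nonneg _
    exact nonneg_of_mul_nonneg_right h3 hK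
  refine ⟨hQ0, ?_⟩
  have hle : (form (gp x m) c c).re ≤ ∑ s, ‖c s‖ * ‖val x m c s‖ := by
    refine (Complex.re_le_norm _).trans ?_
    rw [form_val]
    refine (norm_sum_le _ _).trans (le_of_eq ?_)
    refine sum_congr rfl fun s _ => ?_
    rw [norm_mul, RCLike.norm_conj]
  have hcs : (∑ s, ‖c s‖ * ‖val x m c s‖) ^ 2 ≤ nsq c * ∑ s, ‖val x m c s‖ ^ 2 :=
    sum_mul_sq_le_sq_mul_sq univ _ _
  have hsq : (form (gp x m) c c).re ^ 2 ≤ nsq c * (K * (form (gp x m) c c).re) := by
    rw [← hre]
    exact (pow_le_pow_left₀ hQ0 hle 2).trans hcs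
  rcases hQ0.lt_or_eq with h | h
  · have h3 : (form (gp x m) c c).re * (form (gp x m) c c).re ≤
        (form (gp x m) c c).re * (K * nsq c) := by
      nlinarith
    exact le_of_mul_le_mul_left h3 h
  · rw [← h]
    exact mul_nonneg hK.le (nsq_nonneg c)

lemma bounds_one (hx : IsETF x) (c : κ → ℂ) :
    0 ≤ (form (gp x 1) c c).re ∧ (form (gp x 1) c c).re ≤ d * nsq c := by
  refine bounds_of 1 (by exact_mod_cast hx.hd) (fun s t => ?_) c
  have := FrameCrit.sic_frame hx.hd hx.card x hx.h1 hx.h2 (x s) (x t)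
  simp only [gp, pow_one]
  rw [this]
  push_cast
  rfl

lemma bounds_two (hx : IsETF x) (c : κ → ℂ) :
    0 ≤ (form (gp x 2) c c).re ∧ (form (gp x 2) c c).re ≤ 2 * (d : ℝ) / (d + 1) * nsq c := by
  have hD : (0 : ℝ) < (d : ℝ) := by exact_mod_cast hx.hd
  refine bounds_of 2 (by positivity) (fun s t => ?_) c
  have := FrameCrit.sic_design hx.hd hx.card x hx.h1 hx.h2 (x s) (x t) (x s) (x t)
  have e : ∀ k, gp x 2 s k * gp x 2 k t =
      (⟪x s, x k⟫_ℂ * ⟪x k, x t⟫_ℂ) * (⟪x s, x k⟫_ℂ * ⟪x k, x t⟫_ℂ) := by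
    intro k
    unfold gp
    ring
  rw [sum_congr rfl fun k _ => e k, this]
  unfold gp
  push_cast
  ring

lemma bounds_three (hx : IsETF x) (c : κ → ℂ) :
    0 ≤ (form (gp x 3) c c).re ∧ (form (gp x 3) c c).re ≤ 2 * (d : ℝ) / (d + 1) * nsq c := by
  -- split the third power
  have e : form (gp x 3) c c =
      ∑ r : Fin d, form (gp x 2) (fun s => c s * x s r) (fun s => c s * x s r) := by
    unfold form
    symm
    rw [sum_comm]
    refine sum_congr rfl fun s _ => ?_
    rw [sum_comm]
    refine sum_congr rfl fun t _ => ?_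
    have h1 : gp x 3 s t = (∑ r : Fin d, conj (x s r) * x t r) * gp x 2 s t := by
      have h2 : ⟪x s, x t⟫_ℂ = ∑ r : Fin d, conj (x s r) * x t r := by
        rw [PiLp.inner_apply]
        refine sum_congr rfl fun r _ => ?_
        rw [RCLike.inner_apply]
        ring
      rw [← h2]
      unfold gp
      ring
    rw [h1, sum_mul, mul_sum]
    refine sum_congr rfl fun r _ => ?_
    rw [map_mul]
    ring
  have en : ∑ r : Fin d, nsq (fun s => c s * x s r) = nsq c := by
    unfold nsq
    rw [sum_comm]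
    refine sum_congr rfl fun s _ => ?_
    have h1 := hx.h1 s
    have h2 : ∑ r : Fin d, ‖x s r‖ ^ 2 = 1 := by
      rw [← EuclideanSpace.norm_sq_eq, h1, one_pow]
    calc ∑ r, ‖c s * x s r‖ ^ 2 = ‖c s‖ ^ 2 * ∑ r, ‖x s r‖ ^ 2 := by
          rw [mul_sum]
          refine sum_congr rfl fun r _ => ?_
          rw [norm_mul, mul_pow]
      _ = _ := by rw [h2, mul_one]
  rw [e, Complex.re_sum, ← en, mul_sum]
  exact ⟨sum_nonneg fun r _ => (bounds_two hx _).1, sum_le_sum fun r _ => (bounds_two hx _).2⟩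

/-- the form without its diagonal -/
noncomputable def gpo (x : κ → EuclideanSpace ℂ (Fin d)) (m : ℕ) (s t : κ) : ℂ :=
  gp x m s t - if s = t then 1 else 0

lemma gpo_ne (m : ℕ) {s t : κ} (h : s ≠ t) : gpo x m s t = gp x m s t := by
  unfold gpo
  rw [if_neg h, sub_zero]

lemma gpo_self (hx : IsETF x) (m : ℕ) (s : κ) : gpo x m s s = 0 := by
  unfold gpo gp
  rw [if_pos rfl, inner_self_eq_norm_sq_to_K, hx.h1]
  simp

lemma gpo_conj (m : ℕ) (s t : κ) : gpo x m s t = conj (gpo x m t s) := by
  unfold gpo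
  rw [map_sub, ← gp_conj]
  congr 1
  by_cases h : s = t
  · rw [if_pos h, if_pos h.symm, map_one]
  · rw [if_neg h, if_neg (fun h' => h h'.symm), map_zero]

lemma form_gpo (m : ℕ) (c : κ → ℂ) : (form (gpo x m) c c).re = (form (gp x m) c c).re - nsq c := by
  have h : form (gpo x m) c c = form (gp x m) c c - ((nsq c : ℝ) : ℂ) := by
    unfold form gpo nsq
    rw [Complex.ofReal_sum, ← sum_sub_distrib]
    refine sum_congr rfl fun s _ => ?_
    simp only [mul_sub, sum_sub_distrib]
    congr 1
    simp only [mul_ite, mul_one, mul_zero, sum_ite_eq, mem_univ, if_true]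
    rw [mul_comm, Complex.mul_conj, Complex.normSq_eq_norm_sq]
  rw [h, Complex.sub_re, Complex.ofReal_re]

/-- the norm of the form without its diagonal -/
noncomputable def nm (d m : ℕ) : ℝ := if m = 1 then (d : ℝ) - 1 else 1

/-- **The norms.** -/
theorem norm_gpo (hx : IsETF x) (hd : 2 ≤ d) {m : ℕ} (hm : m = 1 ∨ m = 2 ∨ m = 3) (a b : κ → ℂ) :
    ‖form (gpo x m) a b‖ ≤ nm d m * (√(nsq a) * √(nsq b)) := by
  have hD : (2 : ℝ) ≤ (d : ℝ) := by exact_mod_cast hd
  have h2 : 2 * (d : ℝ) / (d + 1) ≤ 2 := by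
    rw [div_le_iff₀ (by linarith)]
    linarith
  refine polar (fun s t => gpo_conj m s t) ?_ (fun c => ?_) a b
  · unfold nm
    split_ifs
    · linarith
    · exact zero_le_one
  · rw [form_gpo]
    have hn := nsq_nonneg c
    rcases hm with rfl | rfl | rfl
    · obtain ⟨h3, h4⟩ := bounds_one hx c
      unfold nm
      rw [if_pos rfl, abs_le]
      constructor
      · nlinarith
      · nlinarith
    · obtain ⟨h3, h4⟩ := bounds_two hx c
      unfold nm
      rw [if_neg (by norm_num), abs_le]
      constructor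
      · linarith
      · have := mul_le_mul_of_nonneg_right h2 hn
        linarith
    · obtain ⟨h3, h4⟩ := bounds_three hx c
      unfold nm
      rw [if_neg (by norm_num), abs_le]
      constructor
      · linarith
      · have := mul_le_mul_of_nonneg_right h2 hn
        linarith

end ETF

end Pool.Agent.H239.PH
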