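import Pool.Agent.H239.PH.Forms

/-!
# The phases of the triple products of a maximal equiangular tight frame
-/

set_option autoImplicit false
set_option linter.unusedSectionVars false

namespace Pool.Agent.H239.PH

open scoped InnerProductSpace ComplexConjugate
open Finset Pool.Agent.H103R3

variable {d : ℕ} {κ : Type*} [Fintype κ] [DecidableEq κ] {x : κ → EuclideanSpace ℂ (Fin d)}

/-- the phase of a triple product -/
noncomputable def ph (x : κ → EuclideanSpace ℂ (Fin d)) (k i j : κ) : ℂ :=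
  ((√((d : ℝ) + 1) ^ 3 : ℝ) : ℂ) * (⟪x k, x i⟫_ℂ * ⟪x i, x j⟫_ℂ * ⟪x j, x k⟫_ℂ)

/-- the pairs of different elements -/
def offD (S T : Finset κ) : Finset (κ × κ) := (S ×ˢ T).filter fun p => p.1 ≠ p.2

lemma sqrt_mul_norm (hx : IsETF x) {i j : κ} (h : i ≠ j) :
    √((d : ℝ) + 1) * ‖⟪x i, x j⟫_ℂ‖ = 1 := by
  have h0 : 0 < √((d : ℝ) + 1) := Real.sqrt_pos.mpr (by positivity)
  rw [hx.h2 i j h, mul_one_div, div_self h0.ne']

lemma norm_ph (hx : IsETF x) {k i j : κ} (h1 : k ≠ i) (h2 : i ≠ j) (h3 : j ≠ k) :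
    ‖ph x k i j‖ = 1 := by
  unfold ph
  have h0 : 0 ≤ √((d : ℝ) + 1) := Real.sqrt_nonneg _
  rw [norm_mul, norm_mul, norm_mul, Complex.norm_real, Real.norm_eq_abs, abs_of_nonneg (by positivity)]
  calc √((d : ℝ) + 1) ^ 3 * (‖⟪x k, x i⟫_ℂ‖ * ‖⟪x i, x j⟫_ℂ‖ * ‖⟪x j, x k⟫_ℂ‖)
      = (√((d : ℝ) + 1) * ‖⟪x k, x i⟫_ℂ‖) * (√((d : ℝ) + 1) * ‖⟪x i, x j⟫_ℂ‖) *
        (√((d : ℝ) + 1) * ‖⟪x j, x k⟫_ℂ‖) := by ring
    _ = 1 := by rw [sqrt_mul_norm hx h1, sqrt_mul_norm hx h2, sqrt_mul_norm hx h3]; norm_num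

/-- **The harmonics on rectangles.** -/
theorem harmonic (hx : IsETF x) (hd : 2 ≤ d) {m : ℕ} (hm : m = 1 ∨ m = 2 ∨ m = 3) (k : κ)
    {S T : Finset κ} (hS : k ∉ S) (hT : k ∉ T) (a b : κ → ℂ) :
    ‖∑ p ∈ offD S T, a p.1 * b p.2 * ph x k p.1 p.2 ^ m‖ ≤
      √((d : ℝ) + 1) ^ m * nm d m * (√(∑ i ∈ S, ‖a i‖ ^ 2) * √(∑ j ∈ T, ‖b j‖ ^ 2)) := by
  set r : ℝ := √((d : ℝ) + 1) with hr
  have hr0 : 0 < r := Real.sqrt_pos.mpr (by positivity)
  let a' : κ → ℂ := fun i => if i ∈ S then conj (a i * ((r : ℂ) * ⟪x k, x i⟫_ℂ) ^ m) else 0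
  let b' : κ → ℂ := fun j => if j ∈ T then b j * ((r : ℂ) * ⟪x j, x k⟫_ℂ) ^ m else 0
  have hna : nsq a' = ∑ i ∈ S, ‖a i‖ ^ 2 := by
    unfold nsq
    rw [← sum_filter_add_sum_filter_not univ (fun i => i ∈ S)]
    have e1 : ∑ i ∈ univ.filter (fun i => ¬ i ∈ S), ‖a' i‖ ^ 2 = 0 := by
      refine sum_eq_zero fun i hi => ?_
      have hi' : i ∉ S := (mem_filter.mp hi).2
      simp [a', hi']
    rw [e1, add_zero, filter_mem_eq_inter, univ_inter]
    refine sum_congr rfl fun i hi => ?_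
    have hki : k ≠ i := fun h => hS (h ▸ hi)
    simp only [a', hi, if_true]
    rw [RCLike.norm_conj, norm_mul, norm_pow, norm_mul, Complex.norm_real, Real.norm_eq_abs,
      abs_of_pos hr0, hr, sqrt_mul_norm hx hki, one_pow, mul_one]
  have hnb : nsq b' = ∑ j ∈ T, ‖b j‖ ^ 2 := by
    unfold nsq
    rw [← sum_filter_add_sum_filter_not univ (fun i => i ∈ T)]
    have e1 : ∑ i ∈ univ.filter (fun i => ¬ i ∈ T), ‖b' i‖ ^ 2 = 0 := by
      refine sum_eq_zero fun i hi => ?_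
      have hi' : i ∉ T := (mem_filter.mp hi).2
      simp [b', hi']
    rw [e1, add_zero, filter_mem_eq_inter, univ_inter]
    refine sum_congr rfl fun j hj => ?_
    have hjk : j ≠ k := fun h => hT (h ▸ hj)
    simp only [b', hj, if_true]
    rw [norm_mul, norm_pow, norm_mul, Complex.norm_real, Real.norm_eq_abs,
      abs_of_pos hr0, hr, sqrt_mul_norm hx hjk, one_pow, mul_one]
  have key := norm_gpo hx hd hm a' b'
  rw [hna, hnb] at key
  have hsum : ∑ p ∈ offD S T, a p.1 * b p.2 * ph x k p.1 p.2 ^ m =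
      ((r ^ m : ℝ) : ℂ) * form (gpo x m) a' b' := by
    unfold form offD
    rw [sum_filter, sum_product, mul_sum]
    have e1 : ∀ i, i ∉ S → ((r ^ m : ℝ) : ℂ) * ∑ t, conj (a' i) * b' t * gpo x m i t = 0 := by
      intro i hi
      have : a' i = 0 := by simp [a', hi]
      simp [this]
    rw [← sum_subset (subset_univ S) fun i _ hi => e1 i hi]
    refine sum_congr rfl fun i hi => ?_
    rw [mul_sum, ← sum_subset (subset_univ T) fun j _ hj => by
      have : b' j = 0 := by simp [b', hj]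
      rw [this]; simp]
    refine sum_congr rfl fun j hj => ?_
    by_cases hij : i = j
    · subst hij
      rw [gpo_self hx]
      simp
    · rw [if_pos hij, gpo_ne m hij]
      simp only [a', b', hi, hj, if_true, Complex.conj_conj]
      unfold ph gp
      rw [← hr]
      push_cast
      ring
  rw [hsum, norm_mul, Complex.norm_real, Real.norm_eq_abs, abs_of_nonneg (by positivity), mul_assoc]
  exact mul_le_mul_of_nonneg_left key (by positivity)

lemma nm_le (hd : 2 ≤ d) {m : ℕ} (hm : m = 1 ∨ m = 2 ∨ m = 3) :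
    √((d : ℝ) + 1) ^ m * nm d m ≤ √((d : ℝ) + 1) ^ 3 := by
  have hD : (2 : ℝ) ≤ (d : ℝ) := by exact_mod_cast hd
  have h0 : 1 ≤ √((d : ℝ) + 1) := by
    rw [Real.one_le_sqrt]
    linarith
  have hsq : √((d : ℝ) + 1) ^ 2 = (d : ℝ) + 1 := Real.sq_sqrt (by positivity)
  rcases hm with rfl | rfl | rfl
  · unfold nm
    rw [if_pos rfl, pow_one]
    calc √((d : ℝ) + 1) * ((d : ℝ) - 1) ≤ √((d : ℝ) + 1) * ((d : ℝ) + 1) :=
          mul_le_mul_of_nonneg_left (by linarith) (by positivity)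
      _ = √((d : ℝ) + 1) * √((d : ℝ) + 1) ^ 2 := by rw [hsq]
      _ = _ := by ring
  · unfold nm
    rw [if_neg (by norm_num), mul_one]
    exact pow_le_pow_right₀ h0 (by norm_num)
  · unfold nm
    rw [if_neg (by norm_num), mul_one]

/-- the real parts of the harmonics -/
lemma re_harmonic (hx : IsETF x) (hd : 2 ≤ d) {m : ℕ} (hm : m = 1 ∨ m = 2 ∨ m = 3) (k : κ)
    {S T : Finset κ} (hS : k ∉ S) (hT : k ∉ T) {ω : ℂ} (hω : ‖ω‖ = 1) :
    |∑ p ∈ offD S T, ((ph x k p.1 p.2 * conj ω) ^ m).re| ≤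
      √((d : ℝ) + 1) ^ 3 * √((S.card : ℝ) * T.card) := by
  have h := harmonic hx hd hm k hS hT (fun _ => 1) (fun _ => conj ω ^ m)
  have e1 : ∑ p ∈ offD S T, (1 : ℂ) * conj ω ^ m * ph x k p.1 p.2 ^ m =
      ∑ p ∈ offD S T, (ph x k p.1 p.2 * conj ω) ^ m :=
    sum_congr rfl fun p _ => by ring
  have hn : ‖conj ω ^ m‖ = 1 := by rw [norm_pow, RCLike.norm_conj, hω, one_pow]
  simp only [e1, norm_one, one_pow, hn, sum_const, nsmul_eq_mul, mul_one] at h
  rw [← Complex.re_sum]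
  refine (Complex.abs_re_le_norm _).trans (h.trans ?_)
  rw [Real.sqrt_mul (Nat.cast_nonneg _)]
  exact mul_le_mul_of_nonneg_right (nm_le hd hm) (by positivity)

/-- trigonometric identities -/
lemma re_sq_of {v : ℂ} (hv : ‖v‖ = 1) : v.re ^ 2 = (1 + (v ^ 2).re) / 2 ∧
    v.re ^ 3 = (3 * v.re + (v ^ 3).re) / 4 := by
  have h1 : v.re ^ 2 + v.im ^ 2 = 1 := by
    have h2 : v.re ^ 2 + v.im ^ 2 = ‖v‖ ^ 2 := by
      rw [← Complex.normSq_eq_norm_sq, Complex.normSq_apply]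
      ring
    rw [h2, hv, one_pow]
  have e2 : (v ^ 2).re = v.re ^ 2 - v.im ^ 2 := by
    rw [sq, Complex.mul_re]; ring
  have e3 : (v ^ 3).re = v.re ^ 3 - 3 * v.re * v.im ^ 2 := by
    rw [pow_succ, sq, Complex.mul_re, Complex.mul_re, Complex.mul_im]; ring
  have h3 : v.im ^ 2 = 1 - v.re ^ 2 := by linarith
  constructor
  · rw [e2, h3]; ring
  · rw [e3, h3]; ring

/-- the number of pairs with the phase in an arc -/
noncomputable def arcN (x : κ → EuclideanSpace ℂ (Fin d)) (k : κ) (S T : Finset κ) (ω : ℂ) (c : ℝ) :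
    Finset (κ × κ) := by
  classical
  exact (offD S T).filter fun p => c ≤ (ph x k p.1 p.2 * conj ω).re

lemma mem_offD {S T : Finset κ} {p : κ × κ} : p ∈ offD S T ↔ p.1 ∈ S ∧ p.2 ∈ T ∧ p.1 ≠ p.2 := by
  unfold offD
  rw [mem_filter, mem_product]
  tauto

lemma unit_of (hx : IsETF x) {k : κ} {S T : Finset κ} (hS : k ∉ S) (hT : k ∉ T) {ω : ℂ}
    (hω : ‖ω‖ = 1) {p : κ × κ} (hp : p ∈ offD S T) : ‖ph x k p.1 p.2 * conj ω‖ = 1 := by
  obtain ⟨h1, h2, h3⟩ := mem_offD.mp hp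
  rw [norm_mul, RCLike.norm_conj, hω, mul_one]
  exact norm_ph hx (fun h => hS (h ▸ h1)) h3 (fun h => hT (h ▸ h2))

/-- **Arcs longer than a quarter of the circle.** -/
theorem arcs (hx : IsETF x) (hd : 2 ≤ d) (k : κ) {S T : Finset κ} (hS : k ∉ S) (hT : k ∉ T)
    {ω : ℂ} (hω : ‖ω‖ = 1) {c : ℝ} (hc1 : -1 ≤ c) (hc2 : c ≤ 1 / √2) :
    (1 / √2 - c) * (offD S T).card ≤ 6 * (arcN x k S T ω c).card +
      5 * (√((d : ℝ) + 1) ^ 3 * √((S.card : ℝ) * T.card)) := by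
  classical
  set A : ℝ := 1 / √2 with hA
  have hA2 : A ^ 2 = 1 / 2 := by
    rw [hA, div_pow, one_pow, Real.sq_sqrt (by norm_num)]
  have hA0 : 0 < A := by positivity
  have hA1 : A < 0.7072 := by
    by_contra hcon
    push Not at hcon
    nlinarith
  set E := √((d : ℝ) + 1) ^ 3 * √((S.card : ℝ) * T.card) with hE
  have hE0 : 0 ≤ E := by positivity
  have s1 := re_harmonic hx hd (Or.inl rfl) k hS hT hω
  have s2 := re_harmonic hx hd (Or.inr (Or.inl rfl)) k hS hT hω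
  have s3 := re_harmonic hx hd (Or.inr (Or.inr rfl)) k hS hT hω
  rw [← hE] at s1 s2 s3
  simp only [pow_one] at s1
  have l1 := (abs_le.mp s1).1
  have l2 := (abs_le.mp s2).1
  have l3 := (abs_le.mp s3).1
  -- the polynomial
  have hpol : ∀ p ∈ offD S T, (A - c) + (5 / 4 - 2 * A * c) * (ph x k p.1 p.2 * conj ω).re +
      ((2 * A - c) / 2) * ((ph x k p.1 p.2 * conj ω) ^ 2).re +
      (1 / 4) * ((ph x k p.1 p.2 * conj ω) ^ 3).re =
      ((ph x k p.1 p.2 * conj ω).re - c) * ((ph x k p.1 p.2 * conj ω).re + A) ^ 2 := by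
    intro p hp
    obtain ⟨e2, e3⟩ := re_sq_of (unit_of hx hS hT hω hp)
    set v := ph x k p.1 p.2 * conj ω
    have e2' : (v ^ 2).re = 2 * v.re ^ 2 - 1 := by linarith
    have e3' : (v ^ 3).re = 4 * v.re ^ 3 - 3 * v.re := by linarith
    rw [e2', e3']
    have hA3 : A ^ 2 * c = c / 2 := by rw [hA2]; ring
    have hA4 : A ^ 2 * v.re = v.re / 2 := by rw [hA2]; ring
    nlinarith
  have hsum : ∑ p ∈ offD S T, ((A - c) + (5 / 4 - 2 * A * c) * (ph x k p.1 p.2 * conj ω).re +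
      ((2 * A - c) / 2) * ((ph x k p.1 p.2 * conj ω) ^ 2).re +
      (1 / 4) * ((ph x k p.1 p.2 * conj ω) ^ 3).re) ≤ 6 * (arcN x k S T ω c).card := by
    rw [sum_congr rfl hpol]
    have h1 : ∀ p ∈ offD S T, ((ph x k p.1 p.2 * conj ω).re - c) *
        ((ph x k p.1 p.2 * conj ω).re + A) ^ 2 ≤
        if c ≤ (ph x k p.1 p.2 * conj ω).re then (6 : ℝ) else 0 := by
      intro p hp
      have hv := unit_of hx hS hT hω hp
      have hre := (abs_le.mp ((Complex.abs_re_le_norm (ph x k p.1 p.2 * conj ω)).trans hv.le))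
      split_ifs with h
      · have b1 : (ph x k p.1 p.2 * conj ω).re - c ≤ 2 := by linarith [hre.2]
        have b2 : ((ph x k p.1 p.2 * conj ω).re + A) ^ 2 ≤ (1 + A) ^ 2 :=
          sq_le_sq' (by linarith [hre.1]) (by linarith [hre.2])
        have b3 : (1 + A) ^ 2 ≤ 3 := by nlinarith
        nlinarith [sq_nonneg ((ph x k p.1 p.2 * conj ω).re + A)]
      · push Not at h
        exact mul_nonpos_of_nonpos_of_nonneg (by linarith) (sq_nonneg _)
    refine (sum_le_sum h1).trans (le_of_eq ?_)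
    rw [← sum_filter, sum_const, nsmul_eq_mul, mul_comm]
    rfl
  simp only [sum_add_distrib, ← mul_sum, sum_const, nsmul_eq_mul] at hsum
  have hk1 : 0 ≤ 5 / 4 - 2 * A * c := by nlinarith
  have hk2 : 0 ≤ (2 * A - c) / 2 := by nlinarith
  have m1 := mul_le_mul_of_nonneg_left l1 hk1
  have m2 := mul_le_mul_of_nonneg_left l2 hk2
  have hfin : (5 / 4 - 2 * A * c) + (2 * A - c) / 2 + 1 / 4 ≤ 5 := by nlinarith
  have m3 := mul_le_mul_of_nonneg_right hfin hE0
  nlinarith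

/-- **Short arcs.** -/
theorem arcs_upper (hx : IsETF x) (hd : 2 ≤ d) (k : κ) {S T : Finset κ} (hS : k ∉ S) (hT : k ∉ T)
    {ω : ℂ} (hω : ‖ω‖ = 1) {c : ℝ} (hc1 : 0 ≤ c) :
    c ^ 2 * (1 + c) / 2 * (arcN x k S T ω c).card ≤ (offD S T).card / 4 +
      3 / 4 * (√((d : ℝ) + 1) ^ 3 * √((S.card : ℝ) * T.card)) := by
  classical
  set E := √((d : ℝ) + 1) ^ 3 * √((S.card : ℝ) * T.card) with hE
  have s1 := re_harmonic hx hd (Or.inl rfl) k hS hT hω
  have s2 := re_harmonic hx hd (Or.inr (Or.inl rfl)) k hS hT hω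
  have s3 := re_harmonic hx hd (Or.inr (Or.inr rfl)) k hS hT hω
  rw [← hE] at s1 s2 s3
  simp only [pow_one] at s1
  have l1 := (abs_le.mp s1).2
  have l2 := (abs_le.mp s2).2
  have l3 := (abs_le.mp s3).2
  have hpol : ∀ p ∈ offD S T, 1 / 4 + (3 / 8) * (ph x k p.1 p.2 * conj ω).re +
      (1 / 4) * ((ph x k p.1 p.2 * conj ω) ^ 2).re + (1 / 8) * ((ph x k p.1 p.2 * conj ω) ^ 3).re =
      (ph x k p.1 p.2 * conj ω).re ^ 2 * (1 + (ph x k p.1 p.2 * conj ω).re) / 2 := by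
    intro p hp
    obtain ⟨e2, e3⟩ := re_sq_of (unit_of hx hS hT hω hp)
    set v := ph x k p.1 p.2 * conj ω
    have e2' : (v ^ 2).re = 2 * v.re ^ 2 - 1 := by linarith
    have e3' : (v ^ 3).re = 4 * v.re ^ 3 - 3 * v.re := by linarith
    rw [e2', e3']
    ring
  have hsum : c ^ 2 * (1 + c) / 2 * (arcN x k S T ω c).card ≤
      ∑ p ∈ offD S T, (1 / 4 + (3 / 8) * (ph x k p.1 p.2 * conj ω).re +
      (1 / 4) * ((ph x k p.1 p.2 * conj ω) ^ 2).re +
      (1 / 8) * ((ph x k p.1 p.2 * conj ω) ^ 3).re) := by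
    rw [sum_congr rfl hpol]
    have h1 : ∀ p ∈ offD S T, (if c ≤ (ph x k p.1 p.2 * conj ω).re then
        c ^ 2 * (1 + c) / 2 else 0) ≤
        (ph x k p.1 p.2 * conj ω).re ^ 2 * (1 + (ph x k p.1 p.2 * conj ω).re) / 2 := by
      intro p hp
      have hv := unit_of hx hS hT hω hp
      have hre := (abs_le.mp ((Complex.abs_re_le_norm (ph x k p.1 p.2 * conj ω)).trans hv.le))
      split_ifs with h
      · have b1 : c ^ 2 ≤ (ph x k p.1 p.2 * conj ω).re ^ 2 := pow_le_pow_left₀ hc1 h 2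
        have b2 : 1 + c ≤ 1 + (ph x k p.1 p.2 * conj ω).re := by linarith
        have := mul_le_mul b1 b2 (by linarith) (sq_nonneg _)
        linarith
      · have := mul_nonneg (sq_nonneg (ph x k p.1 p.2 * conj ω).re)
          (by linarith [hre.1] : 0 ≤ 1 + (ph x k p.1 p.2 * conj ω).re)
        linarith
    refine le_trans (le_of_eq ?_) (sum_le_sum h1)
    rw [← sum_filter, sum_const, nsmul_eq_mul, mul_comm]
    rfl
  simp only [sum_add_distrib, ← mul_sum, sum_const, nsmul_eq_mul] at hsum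
  nlinarith

/-- the sums over the lines of the phases of the triples with two given lines -/
lemma sum_pair (hx : IsETF x) {k i : κ} (hki : k ≠ i) :
    ∑ j ∈ (univ.erase k).erase i, ph x k i j = (((d : ℝ) - 2) * √((d : ℝ) + 1) : ℝ) ∧
      ∑ j ∈ (univ.erase k).erase i, ph x k i j ^ 2 = -2 := by
  set r : ℝ := √((d : ℝ) + 1) with hr
  have hr0 : 0 < r := Real.sqrt_pos.mpr (by positivity)
  have hr2 : r ^ 2 = (d : ℝ) + 1 := Real.sq_sqrt (by positivity)
  have hdC : ((d : ℂ) + 1) = (r : ℂ) ^ 2 := by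
    have := congrArg (fun z : ℝ => (z : ℂ)) hr2
    push_cast at this
    exact this.symm
  have hrC : (r : ℂ) ≠ 0 := by
    rw [Ne, Complex.ofReal_eq_zero]
    exact hr0.ne'
  have hxx : ∀ l, ⟪x l, x l⟫_ℂ = 1 := by
    intro l
    rw [inner_self_eq_norm_sq_to_K, hx.h1]; simp
  have hkk : ⟪x k, x i⟫_ℂ * ⟪x i, x k⟫_ℂ = 1 / (r : ℂ) ^ 2 := by
    rw [← inner_conj_symm (x i) (x k), Complex.mul_conj, Complex.normSq_eq_norm_sq, hx.h2 k i hki,
      ← hr]
    push_cast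
    rw [div_pow, one_pow]
  have hmi : i ∈ univ.erase k := mem_erase.mpr ⟨hki.symm, mem_univ i⟩
  constructor
  · have h1 := FrameCrit.sic_frame hx.hd hx.card x hx.h1 hx.h2 (x i) (x k)
    have h2 : ∑ j, ph x k i j = (r : ℂ) * d := by
      have e : ∀ j, ph x k i j =
          ((r : ℂ) ^ 3 * ⟪x k, x i⟫_ℂ) * (⟪x i, x j⟫_ℂ * ⟪x j, x k⟫_ℂ) := by
        intro j
        unfold ph
        rw [← hr]
        push_cast
        ring
      rw [sum_congr rfl fun j _ => e j, ← mul_sum, h1]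
      have e2 : (r : ℂ) ^ 3 * ⟪x k, x i⟫_ℂ * ((d : ℂ) * ⟪x i, x k⟫_ℂ) =
          (r : ℂ) ^ 3 * d * (⟪x k, x i⟫_ℂ * ⟪x i, x k⟫_ℂ) := by ring
      rw [e2, hkk]
      field_simp
    have h3 : ph x k i i = r := by
      unfold ph
      rw [← hr, hxx, mul_one, hkk]
      push_cast
      field_simp
    have h4 : ph x k i k = r := by
      unfold ph
      rw [← hr, hxx, mul_one, hkk]
      push_cast
      field_simp
    have h5 := sum_erase_eq_sub (f := fun j => ph x k i j) (mem_univ k)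
    have h6 := sum_erase_eq_sub (f := fun j => ph x k i j) hmi
    rw [h6, h5, h2, h3, h4]
    push_cast
    ring
  · have h1 := FrameCrit.sic_design hx.hd hx.card x hx.h1 hx.h2 (x i) (x k) (x i) (x k)
    have h2 : ∑ j, ph x k i j ^ 2 = 2 * (d : ℂ) := by
      have e : ∀ j, ph x k i j ^ 2 = ((r : ℂ) ^ 6 * ⟪x k, x i⟫_ℂ ^ 2) *
          ((⟪x i, x j⟫_ℂ * ⟪x j, x k⟫_ℂ) * (⟪x i, x j⟫_ℂ * ⟪x j, x k⟫_ℂ)) := by
        intro j
        unfold ph
        rw [← hr]
        push_cast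
        ring
      rw [sum_congr rfl fun j _ => e j, ← mul_sum, h1, hdC]
      have e2 : (r : ℂ) ^ 6 * ⟪x k, x i⟫_ℂ ^ 2 * ((d : ℂ) / (r : ℂ) ^ 2 *
          (⟪x i, x k⟫_ℂ * ⟪x i, x k⟫_ℂ + ⟪x i, x k⟫_ℂ * ⟪x i, x k⟫_ℂ)) =
          (r : ℂ) ^ 6 * ((d : ℂ) / (r : ℂ) ^ 2) * 2 * (⟪x k, x i⟫_ℂ * ⟪x i, x k⟫_ℂ) ^ 2 := by ring
      rw [e2, hkk]
      field_simp
    have h3 : ph x k i i ^ 2 = (d : ℂ) + 1 := by
      unfold ph
      rw [← hr, hxx, mul_one, hkk, hdC]
      push_cast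
      field_simp
    have h4 : ph x k i k ^ 2 = (d : ℂ) + 1 := by
      unfold ph
      rw [← hr, hxx, mul_one, hkk, hdC]
      push_cast
      field_simp
    have h5 := sum_erase_eq_sub (f := fun j => ph x k i j ^ 2) (mem_univ k)
    have h6 := sum_erase_eq_sub (f := fun j => ph x k i j ^ 2) hmi
    rw [h6, h5, h2, h3, h4]
    ring

/-- the lines `j` such that the phase of the triple `k, i, j` is in an arc -/
noncomputable def arcP (x : κ → EuclideanSpace ℂ (Fin d)) (k i : κ) (ω : ℂ) (c : ℝ) : Finset κ := by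
  classical
  exact ((univ.erase k).erase i).filter fun j => c ≤ (ph x k i j * conj ω).re

lemma pair_sums (hx : IsETF x) (hd : 2 ≤ d) {k i : κ} (hki : k ≠ i) {ω : ℂ} (hω : ‖ω‖ = 1) :
    |∑ j ∈ (univ.erase k).erase i, (ph x k i j * conj ω).re| ≤ ((d : ℝ) - 2) * √((d : ℝ) + 1) ∧
      |∑ j ∈ (univ.erase k).erase i, ((ph x k i j * conj ω) ^ 2).re| ≤ 2 := by
  have hD : (2 : ℝ) ≤ (d : ℝ) := by exact_mod_cast hd
  obtain ⟨h1, h2⟩ := sum_pair hx hki
  constructor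
  · rw [← Complex.re_sum, ← sum_mul, h1]
    refine (Complex.abs_re_le_norm _).trans (le_of_eq ?_)
    rw [norm_mul, RCLike.norm_conj, hω, mul_one, Complex.norm_real, Real.norm_eq_abs,
      abs_of_nonneg (mul_nonneg (by linarith) (Real.sqrt_nonneg _))]
  · have e : ∀ j, (ph x k i j * conj ω) ^ 2 = ph x k i j ^ 2 * conj ω ^ 2 := fun j => mul_pow _ _ _
    rw [← Complex.re_sum, sum_congr rfl fun j _ => e j, ← sum_mul, h2]
    refine (Complex.abs_re_le_norm _).trans (le_of_eq ?_)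
    rw [norm_mul, norm_pow, RCLike.norm_conj, hω]
    norm_num

lemma unit_pair (hx : IsETF x) {k i : κ} (hki : k ≠ i) {ω : ℂ} (hω : ‖ω‖ = 1) {j : κ}
    (hj : j ∈ (univ.erase k).erase i) : ‖ph x k i j * conj ω‖ = 1 := by
  obtain ⟨h1, h2⟩ := mem_erase.mp hj
  rw [norm_mul, RCLike.norm_conj, hω, mul_one]
  exact norm_ph hx hki h1.symm (mem_erase.mp h2).1

lemma card_pair (hx : IsETF x) {k i : κ} (hki : k ≠ i) :
    ((((univ : Finset κ).erase k).erase i).card : ℝ) = (d : ℝ) ^ 2 - 2 := by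
  have hmi : i ∈ univ.erase k := mem_erase.mpr ⟨hki.symm, mem_univ i⟩
  have h1 : (((univ : Finset κ).erase k).erase i).card + 2 = d ^ 2 := by
    rw [← hx.card, ← card_univ]
    have h2 := card_erase_add_one hmi
    have h3 := card_erase_add_one (mem_univ k)
    omega
  have := congrArg (fun n : ℕ => (n : ℝ)) h1
  push_cast at this
  linarith

/-- **Two given lines, lower bound.** -/
theorem pair_lower (hx : IsETF x) (hd : 2 ≤ d) {k i : κ} (hki : k ≠ i) {ω : ℂ} (hω : ‖ω‖ = 1)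
    {c : ℝ} (hc : c ≤ 1) :
    (1 / 2 - c) * ((d : ℝ) ^ 2 - 2) ≤ 2 * (1 - c) * (arcP x k i ω c).card +
      (1 - c) * (((d : ℝ) - 2) * √((d : ℝ) + 1)) + 1 := by
  classical
  obtain ⟨s1, s2⟩ := pair_sums hx hd hki hω
  have l1 := (abs_le.mp s1).1
  have l2 := (abs_le.mp s2).1
  have hpol : ∀ j ∈ (univ.erase k).erase i, (1 / 2 - c) + (1 - c) * (ph x k i j * conj ω).re +
      (1 / 2) * ((ph x k i j * conj ω) ^ 2).re =
      ((ph x k i j * conj ω).re - c) * ((ph x k i j * conj ω).re + 1) := by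
    intro j hj
    obtain ⟨e2, -⟩ := re_sq_of (unit_pair hx hki hω hj)
    set v := ph x k i j * conj ω
    have e2' : (v ^ 2).re = 2 * v.re ^ 2 - 1 := by linarith
    rw [e2']
    ring
  have hsum : ∑ j ∈ (univ.erase k).erase i, ((1 / 2 - c) + (1 - c) * (ph x k i j * conj ω).re +
      (1 / 2) * ((ph x k i j * conj ω) ^ 2).re) ≤ 2 * (1 - c) * (arcP x k i ω c).card := by
    rw [sum_congr rfl hpol]
    have h1 : ∀ j ∈ (univ.erase k).erase i, ((ph x k i j * conj ω).re - c) *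
        ((ph x k i j * conj ω).re + 1) ≤
        if c ≤ (ph x k i j * conj ω).re then 2 * (1 - c) else 0 := by
      intro j hj
      have hv := unit_pair hx hki hω hj
      have hre := (abs_le.mp ((Complex.abs_re_le_norm (ph x k i j * conj ω)).trans hv.le))
      split_ifs with h
      · have b1 : (ph x k i j * conj ω).re - c ≤ 1 - c := by linarith [hre.2]
        have b2 : (ph x k i j * conj ω).re + 1 ≤ 2 := by linarith [hre.2]
        have := mul_le_mul b1 b2 (by linarith [hre.1]) (by linarith)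
        linarith
      · push Not at h
        exact mul_nonpos_of_nonpos_of_nonneg (by linarith) (by linarith [hre.1])
    refine (sum_le_sum h1).trans (le_of_eq ?_)
    rw [← sum_filter, sum_const, nsmul_eq_mul, mul_comm]
    rfl
  simp only [sum_add_distrib, ← mul_sum, sum_const, nsmul_eq_mul] at hsum
  rw [card_pair hx hki] at hsum
  have hc' : 0 ≤ 1 - c := by linarith
  have := mul_le_mul_of_nonneg_left l1 hc'
  nlinarith

/-- **Two given lines, upper bound.** -/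
theorem pair_upper (hx : IsETF x) (hd : 2 ≤ d) {k i : κ} (hki : k ≠ i) {ω : ℂ} (hω : ‖ω‖ = 1)
    {c : ℝ} (hc : -(1 / 2) ≤ c) :
    (1 + 2 * c) ^ 2 * (arcP x k i ω c).card ≤ 3 * ((d : ℝ) ^ 2 - 2) +
      4 * (((d : ℝ) - 2) * √((d : ℝ) + 1)) + 4 := by
  classical
  obtain ⟨s1, s2⟩ := pair_sums hx hd hki hω
  have l1 := (abs_le.mp s1).2
  have l2 := (abs_le.mp s2).2
  have hpol : ∀ j ∈ (univ.erase k).erase i, 3 + 4 * (ph x k i j * conj ω).re +
      2 * ((ph x k i j * conj ω) ^ 2).re = (1 + 2 * (ph x k i j * conj ω).re) ^ 2 := by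
    intro j hj
    obtain ⟨e2, -⟩ := re_sq_of (unit_pair hx hki hω hj)
    set v := ph x k i j * conj ω
    have e2' : (v ^ 2).re = 2 * v.re ^ 2 - 1 := by linarith
    rw [e2']
    ring
  have hsum : (1 + 2 * c) ^ 2 * (arcP x k i ω c).card ≤
      ∑ j ∈ (univ.erase k).erase i, (3 + 4 * (ph x k i j * conj ω).re +
      2 * ((ph x k i j * conj ω) ^ 2).re) := by
    rw [sum_congr rfl hpol]
    have h1 : ∀ j ∈ (univ.erase k).erase i, (if c ≤ (ph x k i j * conj ω).re then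
        (1 + 2 * c) ^ 2 else 0) ≤ (1 + 2 * (ph x k i j * conj ω).re) ^ 2 := by
      intro j _
      split_ifs with h
      · exact pow_le_pow_left₀ (by linarith) (by linarith) 2
      · exact sq_nonneg _
    refine le_trans (le_of_eq ?_) (sum_le_sum h1)
    rw [← sum_filter, sum_const, nsmul_eq_mul, mul_comm]
    rfl
  simp only [sum_add_distrib, ← mul_sum, sum_const, nsmul_eq_mul] at hsum
  rw [card_pair hx hki] at hsum
  linarith

lemma card_offD_self (S : Finset κ) : ((offD S S).card : ℝ) = S.card * ((S.card : ℝ) - 1) := by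
  have h : offD S S = S.offDiag := by
    ext p
    rw [mem_offD, mem_offDiag]
  rw [h, offDiag_card, Nat.cast_sub (Nat.le_mul_self _)]
  push_cast
  ring

/-- **Sets of lines whose phases avoid an arc.** -/
theorem avoiding (hx : IsETF x) (hd : 2 ≤ d) (k : κ) {S : Finset κ} (hS : k ∉ S)
    {ω : ℂ} (hω : ‖ω‖ = 1) {c : ℝ} (hc1 : -1 ≤ c) (hc2 : c ≤ 1 / √2)
    (h : ∀ i ∈ S, ∀ j ∈ S, i ≠ j → (ph x k i j * conj ω).re < c) :
    (1 / √2 - c) * ((S.card : ℝ) - 1) ≤ 5 * √((d : ℝ) + 1) ^ 3 := by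
  have hE : 0 ≤ 5 * √((d : ℝ) + 1) ^ 3 := by positivity
  have h1 := arcs hx hd k hS hS hω hc1 hc2
  have h2 : arcN x k S S ω c = ∅ := by
    unfold arcN
    rw [filter_eq_empty_iff]
    intro p hp
    obtain ⟨g1, g2, g3⟩ := mem_offD.mp hp
    exact not_le.mpr (h p.1 g1 p.2 g2 g3)
  rw [h2, card_empty, Nat.cast_zero, mul_zero, zero_add, card_offD_self,
    Real.sqrt_mul_self (Nat.cast_nonneg _)] at h1
  rcases Nat.eq_zero_or_pos S.card with h0 | h0
  · rw [h0]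
    have : 0 ≤ 1 / √2 - c := by linarith
    push_cast
    nlinarith
  · have h3 : (0 : ℝ) < S.card := by exact_mod_cast h0
    have h4 : (S.card : ℝ) * ((1 / √2 - c) * ((S.card : ℝ) - 1)) ≤
        S.card * (5 * √((d : ℝ) + 1) ^ 3) := by linarith
    exact le_of_mul_le_mul_left h4 h3

/-- **Almost all pairs of lines.** -/
theorem almost_all (hx : IsETF x) (hd : 2 ≤ d) (k : κ) {ω : ℂ} (hω : ‖ω‖ = 1) {c : ℝ}
    (hc1 : -1 ≤ c) (hc2 : c ≤ 1 / √2) (B : Finset κ)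
    (hB : ∀ i ∈ B, i ≠ k ∧ ((arcP x k i ω c).card : ℝ) < (1 / √2 - c) / 12 * ((d : ℝ) ^ 2 - 1)) :
    (1 / √2 - c) ^ 2 * B.card ≤ 400 * ((d : ℝ) + 1) := by
  classical
  have hD : (2 : ℝ) ≤ (d : ℝ) := by exact_mod_cast hd
  have hs2 : 1 / √2 ≤ 1 := by
    rw [div_le_one (by positivity)]
    rw [Real.one_le_sqrt]
    norm_num
  set μ : ℝ := 1 / √2 - c with hμ
  have hμ0 : 0 ≤ μ := by linarith
  have hμ2 : μ ≤ 2 := by linarith
  have hμ4 : μ ^ 2 ≤ 4 := by nlinarith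
  have hcu : (((univ : Finset κ).erase k).card : ℝ) = (d : ℝ) ^ 2 - 1 := by
    have h3 := card_erase_add_one (mem_univ k)
    rw [card_univ, hx.card] at h3
    have := congrArg (fun n : ℕ => (n : ℝ)) h3
    push_cast at this
    linarith
  have hBk : k ∉ B := fun h => (hB k h).1 rfl
  have hBle : (B.card : ℝ) ≤ (d : ℝ) ^ 2 - 1 := by
    rw [← hcu]
    have : B ⊆ univ.erase k := fun i hi => mem_erase.mpr ⟨(hB i hi).1, mem_univ i⟩
    exact_mod_cast card_le_card this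
  have hB0 : (0 : ℝ) ≤ B.card := Nat.cast_nonneg _
  rcases Nat.lt_or_ge d 3 with hd3 | hd3
  · have h2 : d = 2 := by omega
    have h3 : (B.card : ℝ) ≤ 3 := by
      rw [h2] at hBle
      push_cast at hBle
      linarith
    have h4 : μ ^ 2 * B.card ≤ 4 * 3 := mul_le_mul hμ4 h3 hB0 (by norm_num)
    linarith
  have hD3 : (3 : ℝ) ≤ (d : ℝ) := by exact_mod_cast hd3
  rcases hB0.lt_or_eq with hBpos | hBz
  swap
  · rw [← hBz, mul_zero]
    positivity
  set n : ℝ := (d : ℝ) ^ 2 - 1 with hn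
  have hn8 : 8 ≤ n := by rw [hn]; nlinarith
  have h1 := arcs hx hd k hBk (notMem_erase k univ) hω hc1 hc2
  rw [hcu] at h1
  -- the number of pairs
  have hoff : ((offD B (univ.erase k)).card : ℝ) = B.card * (n - 1) := by
    have e : offD B (univ.erase k) = B.biUnion fun i => ((univ.erase k).erase i).image fun j => (i, j) := by
      ext p
      rw [mem_offD, mem_biUnion]
      constructor
      · rintro ⟨g1, g2, g3⟩
        exact ⟨p.1, g1, mem_image.mpr ⟨p.2, mem_erase.mpr ⟨g3.symm, g2⟩, rfl⟩⟩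
      · rintro ⟨i, g1, g2⟩
        obtain ⟨j, g3, rfl⟩ := mem_image.mp g2
        exact ⟨g1, (mem_erase.mp g3).2, (mem_erase.mp g3).1.symm⟩
    rw [e, card_biUnion]
    · rw [Nat.cast_sum]
      rw [sum_congr rfl fun i hi => by
        rw [card_image_of_injective _ (fun a b h => (Prod.mk.inj h).2),
          card_pair hx (hB i hi).1.symm]]
      rw [sum_const, nsmul_eq_mul, hn]
      ring
    · intro i _ j _ hij
      rw [Function.onFun, disjoint_left]
      rintro p hp hq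
      obtain ⟨a, -, rfl⟩ := mem_image.mp hp
      obtain ⟨b, -, hb⟩ := mem_image.mp hq
      exact hij (Prod.mk.inj hb).1.symm
  have harc : ((arcN x k B (univ.erase k) ω c).card : ℝ) ≤ B.card * (μ / 12 * n) := by
    have e : arcN x k B (univ.erase k) ω c ⊆ B.biUnion fun i => (arcP x k i ω c).image fun j => (i, j) := by
      intro p hp
      obtain ⟨g1, g2⟩ := mem_filter.mp (show p ∈ (offD B (univ.erase k)).filter
        fun p => c ≤ (ph x k p.1 p.2 * conj ω).re by exact hp)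
      obtain ⟨g3, g4, g5⟩ := mem_offD.mp g1
      refine mem_biUnion.mpr ⟨p.1, g3, mem_image.mpr ⟨p.2, ?_, rfl⟩⟩
      show p.2 ∈ ((univ.erase k).erase p.1).filter fun j => c ≤ (ph x k p.1 j * conj ω).re
      exact mem_filter.mpr ⟨mem_erase.mpr ⟨g5.symm, g4⟩, g2⟩
    have h2 : (arcN x k B (univ.erase k) ω c).card ≤ ∑ i ∈ B, (arcP x k i ω c).card := by
      refine (card_le_card e).trans (card_biUnion_le.trans (sum_le_sum fun i _ => ?_))
      exact card_image_le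
    calc ((arcN x k B (univ.erase k) ω c).card : ℝ) ≤ ((∑ i ∈ B, (arcP x k i ω c).card : ℕ) : ℝ) := by
          exact_mod_cast h2
      _ = ∑ i ∈ B, ((arcP x k i ω c).card : ℝ) := by push_cast; rfl
      _ ≤ ∑ _i ∈ B, μ / 12 * n := sum_le_sum fun i hi => (hB i hi).2.le
      _ = _ := by rw [sum_const, nsmul_eq_mul]
  rw [hoff] at h1
  have hr2 : √((d : ℝ) + 1) ^ 2 = (d : ℝ) + 1 := Real.sq_sqrt (by positivity)
  have h2 : μ * B.card * (n / 2 - 1) ≤ 5 * (√((d : ℝ) + 1) ^ 3 * √(B.card * n)) := by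
    nlinarith
  have h3 : (μ * B.card * (n / 2 - 1)) ^ 2 ≤ (5 * (√((d : ℝ) + 1) ^ 3 * √(B.card * n))) ^ 2 :=
    pow_le_pow_left₀ (mul_nonneg (mul_nonneg hμ0 hB0) (by linarith)) h2 2
  have h4 : (5 * (√((d : ℝ) + 1) ^ 3 * √(B.card * n))) ^ 2 = 25 * (((d : ℝ) + 1) ^ 3 * (B.card * n)) := by
    have e1 : √(B.card * n) ^ 2 = B.card * n := Real.sq_sqrt (by positivity)
    calc (5 * (√((d : ℝ) + 1) ^ 3 * √(B.card * n))) ^ 2 =
        25 * ((√((d : ℝ) + 1) ^ 2) ^ 3 * √(B.card * n) ^ 2) := by ring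
      _ = _ := by rw [hr2, e1]
  rw [h4] at h3
  have hn38 : 3 / 8 * n ≤ n / 2 - 1 := by linarith
  have h5 : (3 / 8 * n) ^ 2 ≤ (n / 2 - 1) ^ 2 := pow_le_pow_left₀ (by positivity) hn38 2
  have h6 : μ ^ 2 * B.card * B.card * (3 / 8 * n) ^ 2 ≤ 25 * (((d : ℝ) + 1) ^ 3 * (B.card * n)) := by
    have e1 : μ ^ 2 * B.card * B.card * (3 / 8 * n) ^ 2 ≤ μ ^ 2 * B.card * B.card * (n / 2 - 1) ^ 2 :=
      mul_le_mul_of_nonneg_left h5 (by positivity)
    have e2 : (μ * B.card * (n / 2 - 1)) ^ 2 = μ ^ 2 * B.card * B.card * (n / 2 - 1) ^ 2 := by ring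
    linarith
  have h7 : (B.card * n) * (9 / 64 * (μ ^ 2 * B.card) * n) ≤ (B.card * n) * (25 * ((d : ℝ) + 1) ^ 3) := by
    have e1 : (B.card * n) * (9 / 64 * (μ ^ 2 * B.card) * n) =
        μ ^ 2 * B.card * B.card * (3 / 8 * n) ^ 2 := by ring
    rw [e1]
    linarith
  have h8 := le_of_mul_le_mul_left h7 (by positivity)
  have hn' : n = ((d : ℝ) - 1) * (d + 1) := by rw [hn]; ring
  rw [hn'] at h8
  have h9 : ((d : ℝ) + 1) * (9 / 64 * (μ ^ 2 * B.card) * (d - 1)) ≤ (d + 1) * (25 * ((d : ℝ) + 1) ^ 2) := by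
    nlinarith
  have h10 := le_of_mul_le_mul_left h9 (by positivity)
  have h11 : ((d : ℝ) - 1) * (μ ^ 2 * B.card) ≤ (d - 1) * (400 * ((d : ℝ) + 1)) := by
    have e1 : (d : ℝ) + 1 ≤ 2 * (d - 1) := by linarith
    have e2 : ((d : ℝ) + 1) ^ 2 ≤ 2 * (d - 1) * (d + 1) := by nlinarith
    nlinarith
  exact le_of_mul_le_mul_left h11 (by linarith)

end Pool.Agent.H239.PH
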